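import Pool.Agent.H76.OP.Mem

/-!
# MP_7e9d2b_lc: Open Packing is NP-complete on cubic planar bipartite graphs

Inputs are pairs of a graph with vertex set `{0, …, n-1}`, given by its adjacency matrix, and a
number `k`.  The classes of languages are those of `Pool.Agent.NPC`, built on Mathlib's Turing
machines `Turing.TM2ComputableInPolyTime`.

The reduction is from exact cover by 3-sets.  In a cubic graph with `n` vertices an open packing has
at most `n / 3` elements, with equality if and only if every vertex has exactly one neighbour in it.
The graph of an instance is a grid with a row for each triple and a column for each element, whose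
tiles are planar bipartite graphs with 8 edges leaving them, in 4 pairs; each pair transmits a bit in
both directions.  There are two kinds of inner tiles: a crossing of the row and the column (120
vertices), and an adder (36 vertices), which transmits the bit `x` of the row and changes the bit `s`
of the column into `s + x`; the tiles at the upper and the lower side force the bits `0` and `1`.
-/

set_option autoImplicit false

namespace Pool.Agent.Results.MP_7e9d2b_lc.CubicPlanarBipartite

open Pool.Agent.NPC Pool.Agent.H692R2 Pool.Agent.H673R2

/-- `pos` is a plane straight-line drawing of `G`: different vertices have different positions, no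
vertex lies on an edge of which it is not an end, and two different edges meet at most in a common
end. -/
def IsPlaneDrawing {V : Type} (G : SimpleGraph V) (pos : V → ℝ × ℝ) : Prop :=
  Function.Injective pos ∧
  (∀ u v w, G.Adj u v → pos w ∈ segment ℝ (pos u) (pos v) → w = u ∨ w = v) ∧
  ∀ u v u' v', G.Adj u v → G.Adj u' v' → s(u, v) ≠ s(u', v') →
    ∀ p, p ∈ segment ℝ (pos u) (pos v) → p ∈ segment ℝ (pos u') (pos v') →
      ∃ w, p = pos w ∧ (w = u ∨ w = v) ∧ (w = u' ∨ w = v')

/-- A graph is planar: it has a plane straight-line drawing (for finite graphs this is the usual
notion, by Fáry's theorem). -/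
def IsPlanar {V : Type} (G : SimpleGraph V) : Prop := ∃ pos : V → ℝ × ℝ, IsPlaneDrawing G pos

/-- `S` is an open packing: the open neighbourhoods of its elements are pairwise disjoint. -/
def IsOpenPacking {V : Type} (G : SimpleGraph V) (S : Finset V) : Prop :=
  ∀ u ∈ S, ∀ v ∈ S, u ≠ v → Disjoint (G.neighborSet u) (G.neighborSet v)

/-- The problem Open Packing: given a graph and a number `k`, does the graph have an open packing
with at least `k` elements? -/
def OpenPacking (p : FinGraph × ℕ) : Prop :=
  ∃ S : Finset (Fin p.1.n), IsOpenPacking p.1.graph S ∧ p.2 ≤ S.card

/-- The inputs consisting of a cubic planar bipartite graph and a positive number. -/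
def CubicPlanarBipartiteInput (p : FinGraph × ℕ) : Prop :=
  (∀ v, (p.1.graph.neighborSet v).ncard = 3) ∧ IsPlanar p.1.graph ∧ p.1.graph.IsBipartite ∧ 1 ≤ p.2

/-- **Open Packing is NP-complete on cubic planar bipartite graphs.**  Open Packing is in `NP`, and
restricted to cubic planar bipartite graphs it is `NP`-hard: every language in `NP` has a
polynomial-time many-one reduction to Open Packing all of whose values are cubic planar bipartite
graphs (with positive numbers `k`).  The problem in which the membership in the class is a part of
the question is `NP`-hard, too. -/
theorem result : InNPP OpenPacking ∧ NPHardOn CubicPlanarBipartiteInput OpenPacking ∧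
    NPHardP (fun p => CubicPlanarBipartiteInput p ∧ OpenPacking p) := by
  have h1 : NPHardOn CubicPlanarBipartiteInput OpenPacking := by
    refine npHardOn_of NPC.H632.hardPr_X3C H76.OP.poly_instG ?_ ?_
    · rintro I hI
      exact ⟨H76.OP.redG_cubic I, H76.OP.redG_planar I, H76.OP.redG_bip I, H76.OP.one_le_inst hI⟩
    · rintro I hI
      exact H76.OP.redG_iff hI
  refine ⟨H76.OP.inNP_OPP, h1, ?_⟩
  have h2 : NPHardOn CubicPlanarBipartiteInput
      (fun p => CubicPlanarBipartiteInput p ∧ OpenPacking p) := by
    intro L hL
    obtain ⟨f, hf, hp, hi⟩ := h1 L hL
    exact ⟨f, hf, hp, fun x => (hi x).trans ⟨fun h => ⟨hp x, h⟩, fun h => h.2⟩⟩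
  exact h2.toNPHardP

end Pool.Agent.Results.MP_7e9d2b_lc.CubicPlanarBipartite
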